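import Mathlib
import Pool.Agent.H66B.Final

/-!
# MP_539630_an: Lipschitz Gateaux smooth bumps on spaces with weak-star fragmented dual ball
-/

set_option autoImplicit false

namespace Pool.Agent.Results.MP_539630_an.LipschitzGateauxBump

/-- A topological space is fragmented if some metric `ρ` on its points (not necessarily related
to the topology) has the property that every nonempty set `M` has nonempty relatively open
subsets of `ρ`-diameter less than any given `ε > 0`. -/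
def Fragmented (T : Type) [TopologicalSpace T] : Prop :=
  ∃ ρ : MetricSpace T, ∀ ε : ℝ, 0 < ε → ∀ M : Set T, M.Nonempty →
    ∃ Ω : Set T, IsOpen Ω ∧ (M ∩ Ω).Nonempty ∧
      ∀ x ∈ M ∩ Ω, ∀ y ∈ M ∩ Ω, ρ.dist x y < ε

/-- The closed unit ball of the dual of `X`, as a set in the dual with its weak-star topology. -/
def dualBall (X : Type) [NormedAddCommGroup X] [NormedSpace ℝ X] : Set (WeakDual ℝ X) :=
  {f | ∀ x : X, |f x| ≤ ‖x‖}

/-- Gateaux differentiability at a point, with a continuous linear derivative. -/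
def GateauxDifferentiableAt {X : Type} [NormedAddCommGroup X] [NormedSpace ℝ X]
    (b : X → ℝ) (x : X) : Prop :=
  ∃ L : X →L[ℝ] ℝ, ∀ h : X, HasDerivAt (fun t : ℝ => b (x + t • h)) (L h) 0

theorem result (X : Type) [NormedAddCommGroup X] [NormedSpace ℝ X] [CompleteSpace X]
    (hX : Fragmented (dualBall X)) :
    ∃ b : X → ℝ, (∃ K : NNReal, LipschitzWith K b) ∧ (∀ x, GateauxDifferentiableAt b x) ∧
      Bornology.IsBounded {x | b x ≠ 0} ∧ ∃ x, b x ≠ 0 := by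
  classical
  obtain ⟨ρ, hρ⟩ := hX
  have hmem : ∀ f : X →L[ℝ] ℝ, ‖f‖ ≤ 1 → (show WeakDual ℝ X from f) ∈ dualBall X := by
    intro f hf x
    have h1 := f.le_opNorm x
    have h2 : ‖f‖ * ‖x‖ ≤ 1 * ‖x‖ := mul_le_mul_of_nonneg_right hf (norm_nonneg x)
    rw [Real.norm_eq_abs] at h1
    calc |f x| ≤ ‖f‖ * ‖x‖ := h1
      _ ≤ 1 * ‖x‖ := h2
      _ = ‖x‖ := one_mul _
  set d : (X →L[ℝ] ℝ) → (X →L[ℝ] ℝ) → ℝ := fun f g =>
    if h : ‖f‖ ≤ 1 ∧ ‖g‖ ≤ 1 then ρ.dist ⟨f, hmem f h.1⟩ ⟨g, hmem g h.2⟩ else 0 with hd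
  have hdv : ∀ (f g : X →L[ℝ] ℝ) (hf : ‖f‖ ≤ 1) (hg : ‖g‖ ≤ 1),
      d f g = ρ.dist ⟨f, hmem f hf⟩ ⟨g, hmem g hg⟩ := by
    intro f g hf hg
    simp only [hd]
    rw [dif_pos ⟨hf, hg⟩]
  suffices h : _ by
    obtain ⟨b, hb1, hb2, hb3, hb4⟩ := Pool.Agent.H66B.main X h
    exact ⟨b, hb1, hb4, hb2, hb3⟩
  refine ⟨d, ?_, ?_, ?_, ?_⟩
  · intro f g hf hg
    rw [hdv f g hf hg]
    constructor
    · intro h
      have := @eq_of_dist_eq_zero _ ρ _ _ h
      exact congrArg Subtype.val this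
    · intro h
      subst h
      exact @dist_self _ ρ.toPseudoMetricSpace _
  · intro f g hf hg
    rw [hdv f g hf hg, hdv g f hg hf]
    exact @dist_comm _ ρ.toPseudoMetricSpace _ _
  · intro f g k hf hg hk
    rw [hdv f g hf hg, hdv g k hg hk, hdv f k hf hk]
    exact @dist_triangle _ ρ.toPseudoMetricSpace _ _ _
  · intro ε hε M hM hMB
    obtain ⟨Ω, hΩ, ⟨⟨f, hf⟩, hfM, hfΩ⟩, hlt⟩ := hρ ε hε {f | (f.1 : X →L[ℝ] ℝ) ∈ M}
      (by
        obtain ⟨f, hf⟩ := hM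
        exact ⟨⟨f, hmem f (hMB hf)⟩, hf⟩)
    obtain ⟨U, hU, hUΩ⟩ := isOpen_induced_iff.1 hΩ
    subst hUΩ
    refine ⟨U, ?_, ⟨f, hfM, hfΩ⟩, ?_⟩
    · exact hU
    · rintro g ⟨hgM, hgU⟩ k ⟨hkM, hkU⟩
      rw [hdv g k (hMB hgM) (hMB hkM)]
      exact hlt _ ⟨hgM, hgU⟩ _ ⟨hkM, hkU⟩

end Pool.Agent.Results.MP_539630_an.LipschitzGateauxBump
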